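import Pool.Agent.MTN.Stmts
import Pool.Agent.Helper43_MT100G.Bas

/-! Row NMZ of squad MTN: numerical relations at `1/w`, `w` algebraic, persist under the core of the
monodromy group. -/

set_option autoImplicit false

namespace Pool.Agent.MTN.H76

open Matrix Polynomial Pool.Agent.MT100 Pool.Agent.MT100G Pool.Agent.MT100A Pool.Agent.MT100D
  Pool.Agent.Helper78_MT Pool.Agent.MTL Pool.Agent.MTN Pool.Agent.MTN.H53
open Pool.Agent.MT100G.H43 (AC ac_mul ac_int gtype_near)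

/-! ### Values of products -/

theorem ac_prod {ι : Type} (s : Finset ι) (f : ι → PowerSeries ℚ) {x : ℂ}
    (h : ∀ i ∈ s, AC (f i) x) : AC (∏ i ∈ s, f i) x ∧
      evC (∏ i ∈ s, f i) x = ∏ i ∈ s, evC (f i) x := by
  classical
  induction s using Finset.induction_on with
  | empty =>
    rw [Finset.prod_empty, Finset.prod_empty]
    have h := ac_int 1 x
    rw [Int.cast_one, Int.cast_one] at h
    exact h
  | insert a s ha ih =>
    rw [Finset.prod_insert ha, Finset.prod_insert ha]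
    have h1 := ih fun i hi => h i (Finset.mem_insert_of_mem hi)
    have h2 := ac_mul (h a (Finset.mem_insert_self _ _)) h1.1
    refine ⟨h2.1, ?_⟩
    rw [h2.2, h1.2]

/-! ### Substitution -/

section sub
variable {ι d : Type} [Fintype d]

/-- The substitution of `L i * X i * R` for `X i`. -/
noncomputable def sb (L : ι → Matrix d d ℂ) (R : Matrix d d ℂ) :
    MvPolynomial (ι × d × d) ℂ →ₐ[ℂ] MvPolynomial (ι × d × d) ℂ :=
  MvPolynomial.aeval fun x => ∑ b, (∑ a, MvPolynomial.C (L x.1 x.2.1 a) *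
    MvPolynomial.X (x.1, a, b)) * MvPolynomial.C (R b x.2.2)

theorem tev_sb (L : ι → Matrix d d ℂ) (R : Matrix d d ℂ) (g : ι → Matrix d d ℂ)
    (p : MvPolynomial (ι × d × d) ℂ) : tev g (sb L R p) = pv (fun i => L i * g i * R) p := by
  have h : (tev g).comp (sb L R) = MvPolynomial.aeval (R := ℂ)
      (fun x : ι × d × d => (L x.1 * g x.1 * R : Matrix d d ℂ) x.2.1 x.2.2) := by
    apply MvPolynomial.algHom_ext
    intro x
    rw [AlgHom.comp_apply]
    unfold sb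
    rw [MvPolynomial.aeval_X, MvPolynomial.aeval_X, map_sum, Matrix.mul_apply]
    refine Finset.sum_congr rfl fun b _ => ?_
    rw [map_mul, map_sum, Matrix.mul_apply]
    congr 1
    · refine Finset.sum_congr rfl fun a _ => ?_
      rw [map_mul]
      unfold tev
      rw [MvPolynomial.aeval_C, MvPolynomial.aeval_X]
      rfl
    · unfold tev
      rw [MvPolynomial.aeval_C]
      rfl
  have h1 := congrArg (fun f => f p) h
  change tev g (sb L R p) = _ at h1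
  rw [h1]
  rfl

end sub

/-- NMZ -/
theorem nmz (hgme : GmeStmt) (hvgc : VgcStmt) (hfsc : FscStmt) (hamp : AmpStmt)
    (htrg : TrgDStmt) (hsys : SysDStmt) : NmzStmt := by
  classical
  intro d _ _ F
  obtain ⟨D, hD⟩ := hfsc d F
  refine ⟨D, ?_⟩
  intro ι _ _ κ hκ k m A
  have hT : ∀ κ' : ℕ, IsGW (F.T κ') := fun κ' => htrg d F.H F.K F.N F.δ F.q F.B F.sys κ'
  have hG : ∀ e : ℕ, IsGW (kr fun s : ι × Fin e => F.T (κ s.1)) := fun e =>
    hsys (ι × Fin e) d (fun s => F.T (κ s.1)) fun s => hT _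
  obtain ⟨η, hη, hlb⟩ := hgme m A
  obtain ⟨E, hE⟩ := hamp ι d η k hη
  choose Rg hRg using fun e : ℕ => hlb (ι × Fin e → d) _ (hG e)
  choose Rf hRf using fun e : ℕ => hD ι κ hκ e
  choose Rv hRv using fun i : ι => hvgc d F (κ i)
  have hconv : ∀ (i : ι) (a b : d), ∃ δ : ℝ, 0 < δ ∧ ∀ x : ℂ, ‖x‖ < δ →
      AC (F.T (κ i) a b) x := by
    intro i a b
    obtain ⟨K, N, δ', q, B, hgs⟩ := hT (κ i)
    obtain ⟨δ, hδ, hs⟩ := gtype_near (hgs.gH a b)
    exact ⟨δ, hδ, fun x hx => (hs x hx).1⟩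
  choose δ hδ0 hδ using hconv
  obtain ⟨S1, hS1⟩ : ∃ S1 : ℝ, S1 = ∑ e ∈ Finset.range (E + 1), (|Rg e| + |Rf e|) := ⟨_, rfl⟩
  obtain ⟨S2, hS2⟩ : ∃ S2 : ℝ, S2 = ∑ i, |Rv i| := ⟨_, rfl⟩
  obtain ⟨S3, hS3⟩ : ∃ S3 : ℝ, S3 = ∑ x : ι × d × d, (δ x.1 x.2.1 x.2.2)⁻¹ := ⟨_, rfl⟩
  have hS1' : ∀ e ≤ E, |Rg e| + |Rf e| ≤ S1 := by
    intro e he
    rw [hS1]
    exact Finset.single_le_sum (f := fun e => |Rg e| + |Rf e|)
      (fun i _ => add_nonneg (abs_nonneg _) (abs_nonneg _))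
      (Finset.mem_range.2 (Nat.lt_succ_of_le he))
  have hS2' : ∀ i, |Rv i| ≤ S2 := by
    intro i
    rw [hS2]
    exact Finset.single_le_sum (f := fun i => |Rv i|) (fun i _ => abs_nonneg _) (Finset.mem_univ i)
  have hS3' : ∀ i a b, (δ i a b)⁻¹ ≤ S3 := by
    intro i a b
    rw [hS3]
    exact Finset.single_le_sum (f := fun x : ι × d × d => (δ x.1 x.2.1 x.2.2)⁻¹)
      (fun x _ => inv_nonneg.2 (hδ0 _ _ _).le) (Finset.mem_univ (i, a, b))
  have hS10 : 0 ≤ S1 := (add_nonneg (abs_nonneg _) (abs_nonneg _)).trans (hS1' 0 (Nat.zero_le E))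
  have hS20 : 0 ≤ S2 := by
    rw [hS2]
    exact Finset.sum_nonneg fun i _ => abs_nonneg _
  have hS30 : 0 ≤ S3 := by
    rw [hS3]
    exact Finset.sum_nonneg fun x _ => inv_nonneg.2 (hδ0 _ _ _).le
  refine ⟨1 + S1 + S2 + S3, ?_⟩
  intro M0 hc w hw hR c hcK hrel g hg
  have hw1 : ∀ e ≤ E, Rg e ≤ ‖w‖ := by
    intro e he
    have h1 := hS1' e he
    have h2 := le_abs_self (Rg e)
    have h3 := abs_nonneg (Rf e)
    linarith
  have hw2 : ∀ e ≤ E, Rf e < ‖w‖ := by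
    intro e he
    have h1 := hS1' e he
    have h2 := le_abs_self (Rf e)
    have h3 := abs_nonneg (Rg e)
    linarith
  have hw3 : ∀ i, Rv i < ‖w‖ := by
    intro i
    have h1 := hS2' i
    have h2 := le_abs_self (Rv i)
    linarith
  have hw4 : ∀ i a b, AC (F.T (κ i) a b) w⁻¹ := by
    intro i a b
    apply hδ
    rw [norm_inv]
    have h1 := hS3' i a b
    have h2 : (δ i a b)⁻¹ < ‖w‖ := by linarith
    exact inv_lt_of_inv_lt₀ (hδ0 i a b) h2
  -- the field, the set, the point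
  obtain ⟨K, hK⟩ : ∃ K : IntermediateField ℚ ℂ, K = IntermediateField.adjoin ℚ {w} := ⟨_, rfl⟩
  obtain ⟨G, hGdef⟩ : ∃ G : Set (ι → Matrix d d ℂ), G = {X | ∃ g : ι → Matrix d d ℂ,
      (∀ i, g i ∈ M0) ∧ X = fun i => F.Y (w - κ i) * g i * F.R w} := ⟨_, rfl⟩
  obtain ⟨A0, hA0⟩ : ∃ A0 : ι → Matrix d d ℂ, A0 = fun i => F.Y (w - κ i) * F.R w := ⟨_, rfl⟩
  have hA0G : A0 ∈ G := by
    rw [hGdef, hA0]
    exact ⟨fun _ => 1, fun _ => hc.grp.one, funext fun i => by rw [Matrix.mul_one]⟩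
  have hdom : ∀ p q : MvPolynomial (ι × d × d) ℂ, (∃ A ∈ G, pv A p ≠ 0) →
      (∃ A ∈ G, pv A q ≠ 0) → ∃ A ∈ G, pv A (p * q) ≠ 0 := by
    rintro p q ⟨X, hX, hXp⟩ ⟨Y, hY, hYq⟩
    rw [hGdef] at hX hY
    obtain ⟨gX, hgX, rfl⟩ := hX
    obtain ⟨gY, hgY, rfl⟩ := hY
    rw [← tev_sb (fun i => F.Y (w - κ i)) (F.R w) gX] at hXp
    rw [← tev_sb (fun i => F.Y (w - κ i)) (F.R w) gY] at hYq
    obtain ⟨g', hg', h1, h2⟩ := hc.domain _ _ gX gY hgX hgY hXp hYq
    refine ⟨fun i => F.Y (w - κ i) * g' i * F.R w, ?_, ?_⟩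
    · rw [hGdef]
      exact ⟨g', hg', rfl⟩
    · rw [← tev_sb (fun i => F.Y (w - κ i)) (F.R w) g', map_mul, map_mul]
      exact mul_ne_zero h1 h2
  have hA0v : ∀ i, A0 i = tvC F (κ i) w := by
    intro i
    rw [hA0]
    exact hRv i w (hw3 i)
  have hkr : ∀ (e : ℕ) (β α : ι × Fin e → d),
      evC (kr (fun s : ι × Fin e => F.T (κ s.1)) β α) w⁻¹ = ∏ s, A0 s.1 (β s) (α s) := by
    intro e β α
    have h1 := (ac_prod Finset.univ (fun s : ι × Fin e => F.T (κ s.1) (β s) (α s)) (x := w⁻¹)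
      fun s _ => hw4 s.1 _ _).2
    refine h1.trans (Finset.prod_congr rfl fun s _ => ?_)
    rw [hA0v]
    rfl
  have hMZ : ∀ g ∈ M0, g ∈ F.Zc := fun g hg =>
    ⟨hc.grp.det g hg, fun p hp => hp g (hc.sub hg)⟩
  -- the hypothesis of the amplification
  have hyp : ∀ e ≤ E, ∀ N Z : Submodule K ((ι × Fin e → d) × (ι × Fin e → d) → K),
      (∀ c, c ∈ N ↔ tf (fun β α => (c (β, α) : ℂ)) A0 = 0) →
      (∀ c, c ∈ Z ↔ ∀ A ∈ G, tf (fun β α => (c (β, α) : ℂ)) A = 0) →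
      η * ((Fintype.card ((ι × Fin e → d) × (ι × Fin e → d)) : ℝ) - Module.finrank K Z) ≤
        (Fintype.card ((ι × Fin e → d) × (ι × Fin e → d)) : ℝ) - Module.finrank K N := by
    intro e he
    have h0 := hRg e w hw (hw1 e he)
    unfold Lb at h0
    rw [← hK] at h0
    intro N Z hN hZ
    refine h0 N Z ?_ ?_
    · intro a ha
      have h1 := (hN a).1 ha
      unfold tf at h1
      rw [Fintype.sum_prod_type, ← h1]
      refine Finset.sum_congr rfl fun β _ => Finset.sum_congr rfl fun α _ => ?_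
      rw [hkr]
    · intro p hp a ha
      rw [hZ]
      intro X hX
      rw [hGdef] at hX
      obtain ⟨g', hg', rfl⟩ := hX
      have h1 := hRf e (fun β α => p (β, α)) (by
        rw [← hp, Fintype.sum_prod_type]
        rfl) w (hw2 e he) g' (fun i => hMZ _ (hg' i))
      rw [← h1]
      unfold tf
      refine Finset.sum_congr rfl fun β _ => Finset.sum_congr rfl fun α _ => ?_
      exact congrArg (fun z => z * ∏ s, (F.Y (w - κ s.1) * g' s.1 * F.R w : Matrix d d ℂ)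
        (β s) (α s)) (ha (β, α))
  have hcK' : ∀ β α, c β α ∈ K := by
    intro β α
    rw [hK]
    exact hcK β α
  have h1 := hE K G A0 hA0G hdom hyp (fun β α => ⟨c β α, hcK' β α⟩) (by
    rw [hA0]
    exact hrel) (fun i => F.Y (w - κ i) * g i * F.R w) (by
      rw [hGdef]
      exact ⟨g, hg, rfl⟩)
  exact h1

end Pool.Agent.MTN.H76
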